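import Pool.Agent.H17.RX.Stm

/-!
Project RX, part LPC: real `ℓ²` is complemented in real `L^p[0,1]`, `1 < p < ∞`.
-/

set_option autoImplicit false
open Filter Topology MeasureTheory
open scoped ENNReal

namespace Pool.Agent.H98.RX

open Pool.Agent.H17.RX

/-- Lebesgue measure on `[0,1]` -/
noncomputable abbrev m0 : Measure ℝ := (volume : Measure ℝ).restrict (Set.Icc 0 1)

variable {r : ℕ → ℝ → ℝ} {p : ℝ≥0∞}

/-- finite combinations -/
def cb (r : ℕ → ℝ → ℝ) (s : Finset ℕ) (c : ℕ → ℝ) (x : ℝ) : ℝ := ∑ i ∈ s, c i * r i x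

lemma cb_mem (hm : ∀ n, Measurable (r n)) (ha : ∀ n x, |r n x| = 1) (s : Finset ℕ) (c : ℕ → ℝ)
    (q : ℝ≥0∞) : MemLp (cb r s c) q m0 := by
  refine memLp_finsetSum s fun i _ => ?_
  refine MemLp.of_bound ((hm i).const_mul (c i)).aestronglyMeasurable |c i|
    (Eventually.of_forall fun x => ?_)
  rw [Real.norm_eq_abs, abs_mul, ha, mul_one]

lemma cb_bound (hK : ∀ p : ℝ, 1 ≤ p → ∃ C : ℝ, ∀ (n : ℕ) (c : ℕ → ℝ),
    ∫ x in Set.Icc (0:ℝ) 1, |∑ i ∈ Finset.range n, c i * r i x| ^ p ≤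
      C * (Real.sqrt (∑ i ∈ Finset.range n, c i ^ 2)) ^ p) {t : ℝ} (ht : 1 ≤ t) :
    ∃ C : ℝ, 0 ≤ C ∧ ∀ (s : Finset ℕ) (c : ℕ → ℝ),
      (∫ x, ‖cb r s c x‖ ^ t ∂m0) ^ (1 / t) ≤ C * Real.sqrt (∑ i ∈ s, c i ^ 2) := by
  classical
  obtain ⟨C0, hC0⟩ := hK t ht
  have ht0 : 0 < t := by linarith
  refine ⟨(max C0 0) ^ (1 / t), by positivity, fun s c => ?_⟩
  obtain ⟨n, hn⟩ : ∃ n, s ⊆ Finset.range n := by
    refine ⟨s.sup id + 1, fun i hi => Finset.mem_range.2 ?_⟩
    exact Nat.lt_succ_of_le (Finset.le_sup (f := id) hi)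
  have h := hC0 n (fun i => if i ∈ s then c i else 0)
  have e1 : ∀ x, ∑ i ∈ Finset.range n, (if i ∈ s then c i else 0) * r i x = cb r s c x := by
    intro x
    unfold cb
    rw [← Finset.sum_subset hn (f := fun i => (if i ∈ s then c i else 0) * r i x)]
    · exact Finset.sum_congr rfl fun i hi => by simp [hi]
    · intro i _ hi
      simp [hi]
  have e2 : ∑ i ∈ Finset.range n, (if i ∈ s then c i else 0) ^ 2 = ∑ i ∈ s, c i ^ 2 := by
    rw [← Finset.sum_subset hn (f := fun i => (if i ∈ s then c i else 0) ^ 2)]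
    · exact Finset.sum_congr rfl fun i hi => by simp [hi]
    · intro i _ hi
      simp [hi]
  simp only [e1, e2] at h
  set A := Real.sqrt (∑ i ∈ s, c i ^ 2) with hA
  have hA0 : 0 ≤ A := Real.sqrt_nonneg _
  have h2 : ∫ x, ‖cb r s c x‖ ^ t ∂m0 ≤ max C0 0 * A ^ t := by
    refine le_trans h ?_
    exact mul_le_mul_of_nonneg_right (le_max_left _ _) (by positivity)
  have h3 : 0 ≤ ∫ x, ‖cb r s c x‖ ^ t ∂m0 :=
    integral_nonneg fun x => by positivity
  calc (∫ x, ‖cb r s c x‖ ^ t ∂m0) ^ (1 / t) ≤ (max C0 0 * A ^ t) ^ (1 / t) :=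
        Real.rpow_le_rpow h3 h2 (by positivity)
    _ = (max C0 0) ^ (1 / t) * A := by
        rw [Real.mul_rpow (le_max_right _ _) (by positivity), ← Real.rpow_mul hA0,
          mul_one_div_cancel ht0.ne', Real.rpow_one]

lemma norm_Lp (hp : p ≠ ∞) (hp0 : 0 < p.toReal) (f : Lp ℝ p m0) :
    ‖f‖ = (∫ x, ‖f x‖ ^ p.toReal ∂m0) ^ (1 / p.toReal) := by
  have hp1 : p ≠ 0 := fun h => by rw [h] at hp0; simp at hp0
  rw [Lp.norm_def, (Lp.memLp f).eLpNorm_eq_integral_rpow_norm hp1 hp,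
    ENNReal.toReal_ofReal (by positivity), one_div]

section

variable [Fact (1 ≤ p)]

lemma f_int (f : Lp ℝ p m0) : Integrable f m0 := (Lp.memLp f).integrable Fact.out

lemma fr_int (hm : ∀ n, Measurable (r n)) (ha : ∀ n x, |r n x| = 1) (f : Lp ℝ p m0) (n : ℕ) :
    Integrable (fun x => f x * r n x) m0 := by
  refine (f_int f).mono ((Lp.aestronglyMeasurable f).mul (hm n).aestronglyMeasurable)
    (Eventually.of_forall fun x => ?_)
  rw [norm_mul, Real.norm_eq_abs (r n x), ha, mul_one]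

/-- coefficients -/
noncomputable def co (r : ℕ → ℝ → ℝ) (f : Lp ℝ p m0) (n : ℕ) : ℝ := ∫ x, f x * r n x ∂m0

lemma co_bound (hm : ∀ n, Measurable (r n)) (ha : ∀ n x, |r n x| = 1) (hp : p ≠ ∞)
    (h1 : 1 < p.toReal) {C : ℝ} (hC : 0 ≤ C) (hCb : ∀ (s : Finset ℕ) (c : ℕ → ℝ),
      (∫ x, ‖cb r s c x‖ ^ (p.toReal / (p.toReal - 1)) ∂m0) ^ (1 / (p.toReal / (p.toReal - 1))) ≤
        C * Real.sqrt (∑ i ∈ s, c i ^ 2)) (f : Lp ℝ p m0) (s : Finset ℕ) :
    ∑ i ∈ s, (co r f i) ^ 2 ≤ (C * ‖f‖) ^ 2 := by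
  have hp0 : 0 < p.toReal := by linarith
  have hpq : p.toReal.HolderConjugate (p.toReal / (p.toReal - 1)) :=
    Real.HolderConjugate.conjExponent h1
  set S := ∑ i ∈ s, (co r f i) ^ 2 with hS
  have hS0 : 0 ≤ S := Finset.sum_nonneg fun i _ => sq_nonneg _
  have e1 : S = ∫ x, f x * cb r s (co r f) x ∂m0 := by
    have e2 : ∀ x, f x * cb r s (co r f) x = ∑ i ∈ s, co r f i * (f x * r i x) := by
      intro x
      unfold cb
      rw [Finset.mul_sum]
      exact Finset.sum_congr rfl fun i _ => by ring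
    simp only [e2]
    rw [integral_finsetSum s fun i _ => (fr_int hm ha f i).const_mul _]
    refine Finset.sum_congr rfl fun i _ => ?_
    rw [integral_const_mul, sq]
    rfl
  have hf : MemLp f (ENNReal.ofReal p.toReal) m0 := by
    rw [ENNReal.ofReal_toReal hp]
    exact Lp.memLp f
  have h2 := integral_mul_norm_le_Lp_mul_Lq hpq hf (cb_mem hm ha s (co r f) _)
  rw [← norm_Lp hp hp0] at h2
  have h3 : S ≤ ‖f‖ * (C * Real.sqrt S) := by
    calc S ≤ |S| := le_abs_self _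
      _ = |∫ x, f x * cb r s (co r f) x ∂m0| := by rw [← e1]
      _ ≤ ∫ x, ‖f x * cb r s (co r f) x‖ ∂m0 := by
          rw [← Real.norm_eq_abs]
          exact norm_integral_le_integral_norm _
      _ = ∫ x, ‖f x‖ * ‖cb r s (co r f) x‖ ∂m0 := by simp only [norm_mul]
      _ ≤ _ := h2
      _ ≤ ‖f‖ * (C * Real.sqrt S) := mul_le_mul_of_nonneg_left (hCb s (co r f)) (norm_nonneg _)
  set A := Real.sqrt S with hA
  have hA0 : 0 ≤ A := Real.sqrt_nonneg _
  have hSA : S = A ^ 2 := (Real.sq_sqrt hS0).symm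
  have h4 : A ≤ C * ‖f‖ := by
    rcases hA0.eq_or_lt with h | h
    · rw [← h]; positivity
    · have h5 : A * A ≤ (C * ‖f‖) * A := by
        rw [hSA] at h3
        nlinarith
      exact le_of_mul_le_mul_right h5 h
  rw [hSA]
  exact pow_le_pow_left₀ hA0 h4 2

lemma two_toReal : (2 : ℝ≥0∞).toReal = 2 := by norm_num

/-- the projection -/
theorem exists_P (hm : ∀ n, Measurable (r n)) (ha : ∀ n x, |r n x| = 1) (hp : p ≠ ∞)
    (h1 : 1 < p.toReal) {C : ℝ} (hC : 0 ≤ C) (hCb : ∀ (s : Finset ℕ) (c : ℕ → ℝ),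
      (∫ x, ‖cb r s c x‖ ^ (p.toReal / (p.toReal - 1)) ∂m0) ^ (1 / (p.toReal / (p.toReal - 1))) ≤
        C * Real.sqrt (∑ i ∈ s, c i ^ 2)) :
    ∃ P : Lp ℝ p m0 →L[ℝ] L2, ∀ f n, P f n = co r f n := by
  have hb : ∀ (f : Lp ℝ p m0) (s : Finset ℕ),
      ∑ i ∈ s, ‖co r f i‖ ^ (2 : ℝ≥0∞).toReal ≤ (C * ‖f‖) ^ (2 : ℝ≥0∞).toReal := by
    intro f s
    have := co_bound hm ha hp h1 hC hCb f s
    rw [two_toReal]
    simpa [Real.norm_eq_abs, sq_abs] using this
  let L : Lp ℝ p m0 →ₗ[ℝ] L2 :=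
    { toFun := fun f => ⟨co r f, memℓp_gen' (hb f)⟩
      map_add' := by
        intro f g
        apply lp.ext
        funext n
        show co r (f + g) n = co r f n + co r g n
        unfold co
        rw [← integral_add (fr_int hm ha f n) (fr_int hm ha g n)]
        refine integral_congr_ae ?_
        filter_upwards [Lp.coeFn_add f g] with x hx
        rw [hx, Pi.add_apply, add_mul]
      map_smul' := by
        intro c f
        apply lp.ext
        funext n
        show co r (c • f) n = c * co r f n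
        unfold co
        rw [← integral_const_mul]
        refine integral_congr_ae ?_
        filter_upwards [Lp.coeFn_smul c f] with x hx
        rw [hx, Pi.smul_apply, smul_eq_mul, mul_assoc] }
  refine ⟨L.mkContinuous C fun f => ?_, fun f n => rfl⟩
  exact lp.norm_le_of_forall_sum_le (by rw [two_toReal]; norm_num) (by positivity) (hb f)

/-- the Rademacher function in `L^p` -/
noncomputable def rho (hm : ∀ n, Measurable (r n)) (ha : ∀ n x, |r n x| = 1) (n : ℕ) :
    Lp ℝ p m0 :=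
  MemLp.toLp (r n) (MemLp.of_bound (hm n).aestronglyMeasurable 1
    (Eventually.of_forall fun x => by rw [Real.norm_eq_abs, ha]))

omit [Fact (1 ≤ p)] in
lemma rho_coe (hm : ∀ n, Measurable (r n)) (ha : ∀ n x, |r n x| = 1) (n : ℕ) :
    (rho hm ha n : Lp ℝ p m0) =ᵐ[m0] r n := MemLp.coeFn_toLp _

lemma sum_coe (hm : ∀ n, Measurable (r n)) (ha : ∀ n x, |r n x| = 1) (s : Finset ℕ)
    (c : ℕ → ℝ) : (∑ i ∈ s, c i • (rho hm ha i : Lp ℝ p m0) : Lp ℝ p m0) =ᵐ[m0] cb r s c := by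
  classical
  induction s using Finset.induction_on with
  | empty =>
    filter_upwards [Lp.coeFn_zero ℝ p m0] with x hx
    simp only [Finset.sum_empty, cb]
    exact hx
  | insert a s ha' ih =>
    rw [Finset.sum_insert ha']
    filter_upwards [ih, Lp.coeFn_add (c a • (rho hm ha a : Lp ℝ p m0))
      (∑ i ∈ s, c i • (rho hm ha i : Lp ℝ p m0)),
      Lp.coeFn_smul (c a) (rho hm ha a : Lp ℝ p m0), rho_coe (p := p) hm ha a] with x h1 h2 h3 h4
    rw [h2, Pi.add_apply, h1, h3, Pi.smul_apply, h4, smul_eq_mul]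
    unfold cb
    rw [Finset.sum_insert ha']

/-- the embedding -/
theorem exists_R (hm : ∀ n, Measurable (r n)) (ha : ∀ n x, |r n x| = 1) (hp : p ≠ ∞)
    (h1 : 1 < p.toReal) {C : ℝ} (hCb : ∀ (s : Finset ℕ) (c : ℕ → ℝ),
      (∫ x, ‖cb r s c x‖ ^ p.toReal ∂m0) ^ (1 / p.toReal) ≤
        C * Real.sqrt (∑ i ∈ s, c i ^ 2)) (hC : 0 ≤ C) :
    ∃ R : L2 →L[ℝ] Lp ℝ p m0, ∀ n, R (lp.single 2 n (1 : ℝ)) = rho hm ha n := by
  have hp0 : 0 < p.toReal := by linarith
  let f : (ℕ →₀ ℝ) →ₗ[ℝ] Lp ℝ p m0 := Finsupp.linearCombination ℝ (rho hm ha)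
  let e : (ℕ →₀ ℝ) →ₗ[ℝ] L2 := Finsupp.linearCombination ℝ fun n => lp.single 2 n (1 : ℝ)
  have he : ∀ c : ℕ →₀ ℝ, e c = ∑ i ∈ c.support, lp.single 2 i (c i) := by
    intro c
    show Finsupp.linearCombination ℝ _ c = _
    rw [Finsupp.linearCombination_apply, Finsupp.sum]
    refine Finset.sum_congr rfl fun i _ => ?_
    rw [← lp.single_smul, smul_eq_mul, mul_one]
  have hd : DenseRange e := by
    intro x
    have hx := lp.hasSum_single (p := 2) (by norm_num) x
    refine mem_closure_of_tendsto hx (Eventually.of_forall fun s => ?_)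
    refine ⟨∑ i ∈ s, Finsupp.single i (x i), ?_⟩
    rw [map_sum]
    refine Finset.sum_congr rfl fun i _ => ?_
    show Finsupp.linearCombination ℝ _ _ = _
    rw [Finsupp.linearCombination_single, ← lp.single_smul, smul_eq_mul, mul_one]
  have hval : ∀ (c : ℕ →₀ ℝ) (i : ℕ), (e c : L2) i = c i := by
    intro c i
    rw [he, lp.coeFn_sum, Finset.sum_apply]
    by_cases hi : i ∈ c.support
    · rw [Finset.sum_eq_single_of_mem i hi]
      · exact lp.single_apply_self (E := fun _ : ℕ => ℝ) 2 i (c i)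
      · intro j _ hj
        exact lp.single_apply_ne (E := fun _ : ℕ => ℝ) 2 j (c j) hj.symm
    · rw [Finset.sum_eq_zero]
      · exact (Finsupp.notMem_support_iff.1 hi).symm
      · intro j hj
        have : i ≠ j := fun h => hi (h ▸ hj)
        exact lp.single_apply_ne (E := fun _ : ℕ => ℝ) 2 j (c j) this
  have hn : ∀ c, ‖f c‖ ≤ C * ‖e c‖ := by
    intro c
    have e1 : f c = ∑ i ∈ c.support, c i • (rho hm ha i : Lp ℝ p m0) := by
      show Finsupp.linearCombination ℝ _ c = _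
      rw [Finsupp.linearCombination_apply, Finsupp.sum]
    have e2 : ∫ x, ‖(f c) x‖ ^ p.toReal ∂m0 = ∫ x, ‖cb r c.support c x‖ ^ p.toReal ∂m0 := by
      refine integral_congr_ae ?_
      filter_upwards [sum_coe (p := p) hm ha c.support c] with x hx
      rw [e1, hx]
    rw [norm_Lp hp hp0, e2]
    refine (hCb _ _).trans (mul_le_mul_of_nonneg_left ?_ hC)
    apply Real.sqrt_le_iff.2
    refine ⟨norm_nonneg _, ?_⟩
    have h2 := lp.sum_rpow_le_norm_rpow (p := 2) (by rw [two_toReal]; norm_num) (e c) c.support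
    simp only [hval] at h2
    rw [two_toReal] at h2
    simpa [Real.norm_eq_abs, sq_abs] using h2
  refine ⟨f.extendOfNorm e, fun n => ?_⟩
  have h3 := LinearMap.extendOfNorm_eq hd ⟨C, hn⟩ (Finsupp.single n (1 : ℝ))
  have e3 : e (Finsupp.single n (1 : ℝ)) = lp.single 2 n (1 : ℝ) := by
    show Finsupp.linearCombination ℝ _ _ = _
    rw [Finsupp.linearCombination_single, one_smul]
  have e4 : f (Finsupp.single n (1 : ℝ)) = rho hm ha n := by
    show Finsupp.linearCombination ℝ _ _ = _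
    rw [Finsupp.linearCombination_single, one_smul]
  rw [e3, e4] at h3
  exact h3

end

theorem t_LPC (hKH : S_KH) : S_LPC := by
  intro p _ hp1 hp
  obtain ⟨r, hm, ha, ho, hK⟩ := hKH
  have h1 : 1 < p.toReal := by
    rw [← ENNReal.toReal_one]
    exact (ENNReal.toReal_lt_toReal ENNReal.one_ne_top hp).2 hp1
  have hp0 : 0 < p.toReal := by linarith
  have hq : 1 ≤ p.toReal / (p.toReal - 1) := by
    rw [le_div_iff₀ (by linarith)]
    linarith
  obtain ⟨C1, hC1, hb1⟩ := cb_bound hK h1.le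
  obtain ⟨C2, hC2, hb2⟩ := cb_bound hK hq
  obtain ⟨P, hP⟩ := exists_P (p := p) hm ha hp h1 hC2 hb2
  obtain ⟨R, hR⟩ := exists_R (p := p) hm ha hp h1 hb1 hC1
  refine ⟨R, P, ?_⟩
  have hone : ∀ n, P (R (lp.single 2 n (1 : ℝ))) = lp.single 2 n (1 : ℝ) := by
    intro n
    apply lp.ext
    funext k
    rw [hP, hR]
    have e1 : co r (rho hm ha n : Lp ℝ p m0) k = ∫ x, r n x * r k x ∂m0 := by
      unfold co
      refine integral_congr_ae ?_
      filter_upwards [rho_coe (p := p) hm ha n] with x hx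
      rw [hx]
    rw [e1]
    by_cases hnk : n = k
    · subst hnk
      have e2 : ∀ x, r n x * r n x = 1 := by
        intro x
        have := ha n x
        rw [← abs_mul_abs_self, this, one_mul]
      simp only [e2]
      have e3 : (lp.single 2 n (1 : ℝ) : L2) n = 1 :=
        lp.single_apply_self (E := fun _ : ℕ => ℝ) 2 n (1 : ℝ)
      refine Eq.trans ?_ e3.symm
      simp
    · have e3 : (lp.single 2 n (1 : ℝ) : L2) k = 0 :=
        lp.single_apply_ne (E := fun _ : ℕ => ℝ) 2 n (1 : ℝ) (Ne.symm hnk)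
      exact (ho n k hnk).trans e3.symm
  intro x
  have hx := lp.hasSum_single (p := 2) (by norm_num) x
  have h2 : HasSum (fun i => P (R (lp.single 2 i (x i)))) (P (R x)) := hx.mapL (P.comp R)
  have h3 : ∀ i, P (R (lp.single 2 i (x i))) = lp.single 2 i (x i) := by
    intro i
    have e : (lp.single 2 i (x i) : L2) = x i • lp.single 2 i (1 : ℝ) := by
      rw [← lp.single_smul, smul_eq_mul, mul_one]
    rw [e, map_smul, map_smul, hone]
  simp only [h3] at h2
  exact h2.unique hx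

end Pool.Agent.H98.RX
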